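import Pool.Agent.Y782.WU.Stm

/-!
# Project WU: convergence of the uniform spanning trees
-/

set_option autoImplicit false

open Filter Topology

namespace Pool.Agent.Y848.WU

open Pool.Agent.Y782.WU

section basic

variable {V : Type}

theorem rst_adj {G : SimpleGraph V} {A : Set V} {a b : V} :
    (rst G A).Adj a b ↔ G.Adj a b ∧ a ∈ A ∧ b ∈ A := by
  rw [rst, SimpleGraph.fromRel_adj]
  constructor
  · rintro ⟨_, h | h⟩
    · exact h
    · exact ⟨h.1.symm, h.2.2, h.2.1⟩
  · intro h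
    exact ⟨h.1.ne, Or.inl h⟩

theorem rst_le (G : SimpleGraph V) (A : Set V) : rst G A ≤ G := fun _ _ h => (rst_adj.1 h).1

theorem rst_mono (G : SimpleGraph V) {A B : Set V} (h : A ⊆ B) : rst G A ≤ rst G B := by
  intro a b hab
  have := rst_adj.1 hab
  exact rst_adj.2 ⟨this.1, h this.2.1, h this.2.2⟩

theorem cls_rst_sub (G : SimpleGraph V) (A : Set V) (x : V) :
    cls (rst G A) x ⊆ insert x A := by
  intro w hw
  have hw' : (rst G A).Reachable w x := SimpleGraph.Reachable.symm hw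
  obtain ⟨p⟩ := hw'
  cases p with
  | nil => exact Set.mem_insert _ _
  | cons h q => exact Set.mem_insert_of_mem _ (rst_adj.1 h).2.1

theorem cls_rst_finite (G : SimpleGraph V) (A : Finset V) (x : V) :
    (cls (rst G (A : Set V)) x).Finite :=
  (A.finite_toSet.insert x).subset (cls_rst_sub G _ x)

theorem reach_loc {K : SimpleGraph V} {x a b : V} (p : K.Walk a b) (ha : a ∈ cls K x) :
    (rst K (cls K x)).Reachable a b := by
  induction p with
  | nil => exact SimpleGraph.Reachable.refl _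
  | cons h q ih =>
    have hv := SimpleGraph.Reachable.trans ha h.reachable
    exact SimpleGraph.Reachable.trans
      (SimpleGraph.Adj.reachable (rst_adj.2 ⟨h, ha, hv⟩)) (ih hv)

theorem cls_loc (K : SimpleGraph V) (x : V) : cls (rst K (cls K x)) x = cls K x := by
  apply Set.Subset.antisymm
  · intro w hw
    exact SimpleGraph.Reachable.mono (rst_le _ _) hw
  · intro w hw
    have hw' : K.Reachable x w := hw
    obtain ⟨p⟩ := hw'
    exact reach_loc p (SimpleGraph.Reachable.refl x)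

theorem STs_loc (K : SimpleGraph V) (x : V) : STs (rst K (cls K x)) x = STs K x := by
  ext t
  unfold STs
  rw [cls_loc]
  constructor
  · rintro ⟨h1, h2, h3, h4⟩
    exact ⟨h1.trans (rst_le _ _), h2, h3, h4⟩
  · rintro ⟨h1, h2, h3, h4⟩
    exact ⟨fun a b hab => rst_adj.2 ⟨h1 hab, h2 a b hab, h2 b a hab.symm⟩, h2, h3, h4⟩

theorem fr_loc (K : SimpleGraph V) (x : V) (F S : Finset (Sym2 V)) :
    fr (rst K (cls K x)) x F S = fr K x F S := by
  unfold fr
  rw [STs_loc]

theorem STs_root {H : SimpleGraph V} {x y : V} (h : H.Reachable x y) : STs H x ⊆ STs H y := by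
  rintro t ⟨h1, h2, h3, h4⟩
  have hy := h4 y h
  refine ⟨h1, fun a b hab => ?_, h3, fun a ha => ?_⟩
  · exact SimpleGraph.Reachable.trans h.symm (h2 a b hab)
  · exact SimpleGraph.Reachable.trans hy.symm (h4 a (SimpleGraph.Reachable.trans h ha))

theorem fr_root {H : SimpleGraph V} {x y : V} (h : H.Reachable x y) (F S : Finset (Sym2 V)) :
    fr H x F S = fr H y F S := by
  have e : STs H x = STs H y := Set.Subset.antisymm (STs_root h) (STs_root h.symm)
  unfold fr
  rw [e]

theorem fr_nonneg (H : SimpleGraph V) (x : V) (F S : Finset (Sym2 V)) : 0 ≤ fr H x F S := by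
  unfold fr
  positivity

/-- `F` lies in the component of `x` -/
def Gd (K : SimpleGraph V) (x : V) (F : Finset (Sym2 V)) : Prop :=
  ∀ e ∈ F, (∀ v ∈ e, v ∈ cls K x) ∧ e ∈ K.edgeSet

theorem Gd.mono {K K' : SimpleGraph V} {x : V} {F : Finset (Sym2 V)} (h : Gd K x F)
    (hle : K ≤ K') : Gd K' x F := by
  intro e he
  refine ⟨fun v hv => ?_, ?_⟩
  · exact SimpleGraph.Reachable.mono hle ((h e he).1 v hv)
  · exact SimpleGraph.edgeSet_mono hle (h e he).2

theorem Gd.loc {K : SimpleGraph V} {x : V} {F : Finset (Sym2 V)} (h : Gd K x F) :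
    Gd (rst K (cls K x)) x F := by
  intro e he
  rw [cls_loc]
  refine ⟨(h e he).1, ?_⟩
  have h1 := (h e he).1
  have h2 := (h e he).2
  induction e using Sym2.ind with
  | _ a b =>
    rw [SimpleGraph.mem_edgeSet] at h2 ⊢
    exact rst_adj.2 ⟨h2, h1 a (Sym2.mem_mk_left a b), h1 b (Sym2.mem_mk_right a b)⟩

theorem Gd.mem {K : SimpleGraph V} {x : V} {F : Finset (Sym2 V)} (h : Gd K x F)
    (hf : (cls K x).Finite) : ∀ e ∈ F, e ∈ (gC K x hf).D := by
  classical
  intro e he
  simp only [gC, Finset.mem_filter, Finset.mem_sym2_iff, Set.Finite.mem_toFinset]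
  exact ⟨(h e he).1, (h e he).2⟩

/-- sum of the marginals -/
noncomputable def mm (K : SimpleGraph V) (x : V) (F : Finset (Sym2 V)) : ℝ :=
  ∑ e ∈ F, fr K x {e} {e}

theorem cmpA (h1 : S_CP) (h2 : S_D1) {H H' : SimpleGraph V} {x : V} (hf : (cls H x).Finite)
    (hf' : (cls H' x).Finite) (hle : H ≤ H') {F : Finset (Sym2 V)} (S : Finset (Sym2 V))
    (hG : Gd H x F) : mm H' x F ≤ mm H x F ∧
      |fr H x F S - fr H' x F S| ≤ mm H x F - mm H' x F := by
  obtain ⟨_, _, _, _, hex⟩ := h2 V H x hf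
  obtain ⟨O, hO, hpos, hfr⟩ := hex H' hf' hle
  obtain ⟨_, _, _, hfr', _⟩ := h2 V H' x hf'
  have hFD := hG.mem hf
  have hdis : Disjoint F O := by
    rw [Finset.disjoint_left]
    intro e he
    exact hO e (hFD e he)
  obtain ⟨c1, c2⟩ := h1 V (Sym2 V) (gC H' x hf') O F S hpos hdis
  have hs : ∀ e ∈ F, ∀ e' ∈ ({e} : Finset (Sym2 V)), e' ∈ (gC H x hf).D := by
    intro e he e' he'
    rw [Finset.mem_singleton] at he'
    rw [he']
    exact hFD e he
  have e1 : ∑ e ∈ F, ((NS (gC H' x hf') ∅ O (agr {e} {e}) : ℝ) / NS (gC H' x hf') ∅ O tr -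
      (NS (gC H' x hf') ∅ ∅ (agr {e} {e}) : ℝ) / NS (gC H' x hf') ∅ ∅ tr) =
      mm H x F - mm H' x F := by
    unfold mm
    rw [← Finset.sum_sub_distrib]
    apply Finset.sum_congr rfl
    intro e he
    rw [hfr {e} {e} (hs e he), ← hfr' {e} {e}]
  rw [hfr F S hFD, ← hfr' F S, e1] at c2
  refine ⟨?_, c2⟩
  have := (abs_nonneg _).trans c2
  linarith

theorem cmpB (h1 : S_CP) (h3 : S_D2) [Infinite V] {G : SimpleGraph V} (hG : G.Connected)
    {A : Finset V} {x : V} (hD : {e : Sym2 V | e ∈ G.edgeSet ∧ ∃ v ∈ e, v ∈ A}.Finite)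
    (hx : x ∈ A) (hA : ∀ a ∈ A, a ∈ cls (rst G (A : Set V)) x) {F : Finset (Sym2 V)}
    (S : Finset (Sym2 V)) (hGd : Gd (rst G (A : Set V)) x F) :
    |fr (rst G (A : Set V)) x F S - wr G A F S| ≤
      ∑ e ∈ F, (fr (rst G (A : Set V)) x {e} {e} - wr G A {e} {e}) := by
  have hf := cls_rst_finite G A x
  obtain ⟨_, _, hfr', O, hO, hpos, hfr⟩ := h3 V G A x inferInstance hG hD hf hx hA
  have hFD := hGd.mem hf
  have hdis : Disjoint F O := by
    rw [Finset.disjoint_left]
    intro e he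
    exact hO e (hFD e he)
  obtain ⟨c1, c2⟩ := h1 (Option V) (Sym2 V) (gW G A hD) O F S hpos hdis
  have hs : ∀ e ∈ F, ∀ e' ∈ ({e} : Finset (Sym2 V)), e' ∈ (gC (rst G (A : Set V)) x hf).D := by
    intro e he e' he'
    rw [Finset.mem_singleton] at he'
    rw [he']
    exact hFD e he
  have e1 : ∑ e ∈ F, ((NS (gW G A hD) ∅ O (agr {e} {e}) : ℝ) / NS (gW G A hD) ∅ O tr -
      (NS (gW G A hD) ∅ ∅ (agr {e} {e}) : ℝ) / NS (gW G A hD) ∅ ∅ tr) =
      ∑ e ∈ F, (fr (rst G (A : Set V)) x {e} {e} - wr G A {e} {e}) := by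
    apply Finset.sum_congr rfl
    intro e he
    rw [hfr {e} {e} (hs e he), ← hfr' {e} {e}]
  rw [hfr F S hFD, ← hfr' F S, e1] at c2
  exact c2

theorem reach_big {G : SimpleGraph V} {x y : V} (p : G.Walk x y) :
    ∃ W : Finset V, ∀ A : Finset V, W ⊆ A → (rst G (A : Set V)).Reachable x y := by
  classical
  induction p with
  | nil => exact ⟨∅, fun A _ => SimpleGraph.Reachable.refl _⟩
  | @cons u v w h q ih =>
    obtain ⟨W, hW⟩ := ih
    refine ⟨insert u (insert v W), fun A hA => ?_⟩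
    have hu : u ∈ A := hA (Finset.mem_insert_self _ _)
    have hv : v ∈ A := hA (Finset.mem_insert_of_mem (Finset.mem_insert_self _ _))
    have hWA : W ⊆ A := fun z hz =>
      hA (Finset.mem_insert_of_mem (Finset.mem_insert_of_mem hz))
    exact SimpleGraph.Reachable.trans
      (SimpleGraph.Adj.reachable (rst_adj.2 ⟨h, hu, hv⟩)) (hW A hWA)

theorem Gd_big {G : SimpleGraph V} (hG : G.Connected) (x : V) (F : Finset (Sym2 V))
    (hF : (F : Set (Sym2 V)) ⊆ G.edgeSet) :
    ∃ A0 : Finset V, ∀ A : Finset V, A0 ⊆ A → Gd (rst G (A : Set V)) x F := by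
  classical
  induction F using Finset.induction_on with
  | empty => exact ⟨∅, fun A _ e he => absurd he (Finset.notMem_empty e)⟩
  | insert e F _ ih =>
    obtain ⟨A0, hA0⟩ := ih (fun z hz => hF (by
      rw [Finset.coe_insert]
      exact Set.mem_insert_of_mem _ hz))
    have he : e ∈ G.edgeSet := hF (by
      rw [Finset.coe_insert]
      exact Set.mem_insert _ _)
    induction e using Sym2.ind with
    | _ a b =>
      rw [SimpleGraph.mem_edgeSet] at he
      obtain ⟨pa⟩ := hG.preconnected x a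
      obtain ⟨pb⟩ := hG.preconnected x b
      obtain ⟨Wa, hWa⟩ := reach_big pa
      obtain ⟨Wb, hWb⟩ := reach_big pb
      refine ⟨A0 ∪ Wa ∪ Wb ∪ {a, b}, fun A hA => ?_⟩
      have s1 : A0 ⊆ A := fun z hz => hA (by simp [hz])
      have s2 : Wa ⊆ A := fun z hz => hA (by simp [hz])
      have s3 : Wb ⊆ A := fun z hz => hA (by simp [hz])
      have sa : a ∈ A := hA (by simp)
      have sb : b ∈ A := hA (by simp)
      intro e' he'
      rw [Finset.mem_insert] at he'
      rcases he' with rfl | he'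
      · refine ⟨fun v hv => ?_, ?_⟩
        · rw [Sym2.mem_iff] at hv
          rcases hv with rfl | rfl
          · exact hWa A s2
          · exact hWb A s3
        · rw [SimpleGraph.mem_edgeSet]
          exact rst_adj.2 ⟨he, sa, sb⟩
      · exact hA0 A s1 e' he'

/-- the limit at `x` -/
theorem core (h1 : S_CP) (h2 : S_D1) {G : SimpleGraph V} (hG : G.Connected) (x : V)
    (F S : Finset (Sym2 V)) (hF : (F : Set (Sym2 V)) ⊆ G.edgeSet) :
    ∃ L : ℝ, ∀ ε : ℝ, 0 < ε → ∃ A1 : Finset V, ∀ K : SimpleGraph V, K ≤ G → (cls K x).Finite →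
      rst G (A1 : Set V) ≤ K → |fr K x F S - L| ≤ ε := by
  classical
  obtain ⟨A0, hA0⟩ := Gd_big hG x F hF
  have hfin : ∀ A : Finset V, (cls (rst G (A : Set V)) x).Finite := fun A => cls_rst_finite G A x
  set m : Finset V → ℝ := fun A => mm (rst G (A : Set V)) x F with hm
  set u : Finset V → ℝ := fun A => fr (rst G (A : Set V)) x F S with hu
  have hm0 : ∀ A, 0 ≤ m A := fun A => Finset.sum_nonneg fun e _ => fr_nonneg _ _ _ _
  have hmono : ∀ A B : Finset V, A ⊆ B → rst G (A : Set V) ≤ rst G (B : Set V) := fun A B h =>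
    rst_mono G (Finset.coe_subset.2 h)
  set Sm : Set ℝ := {r | ∃ A : Finset V, A0 ⊆ A ∧ r = m A} with hSm
  have hne : Sm.Nonempty := ⟨m A0, A0, Finset.Subset.refl _, rfl⟩
  have hbb : BddBelow Sm := ⟨0, by rintro r ⟨A, _, rfl⟩; exact hm0 A⟩
  set μ := sInf Sm with hμ
  have hμle : ∀ A, A0 ⊆ A → μ ≤ m A := fun A hA => csInf_le hbb ⟨A, hA, rfl⟩
  -- a good set for every `δ`
  have hex : ∀ δ : ℝ, 0 < δ → ∃ A, A0 ⊆ A ∧ m A < μ + δ := by
    intro δ hδ
    obtain ⟨r, ⟨A, hA, rfl⟩, hr⟩ := exists_lt_of_csInf_lt hne (show sInf Sm < μ + δ by linarith)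
    exact ⟨A, hA, hr⟩
  have hstep : ∀ A B, A0 ⊆ A → A ⊆ B → m B ≤ m A ∧ |u A - u B| ≤ m A - m B := fun A B hA hAB =>
    cmpA h1 h2 (hfin A) (hfin B) (hmono A B hAB) S (hA0 A hA)
  have hcau : CauchySeq u := by
    rw [Metric.cauchySeq_iff']
    intro ε hε
    obtain ⟨A, hA, hlt⟩ := hex ε hε
    refine ⟨A, fun B hB => ?_⟩
    have h5 := (hstep A B hA hB).2
    have h6 := hμle B (hA.trans hB)
    rw [dist_comm, Real.dist_eq]
    linarith
  obtain ⟨L, hL⟩ := cauchySeq_tendsto_of_complete hcau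
  -- the distance from the limit
  have hdist : ∀ A, A0 ⊆ A → |u A - L| ≤ m A - μ := by
    intro A hA
    have h5 : Tendsto (fun B => |u A - u B|) atTop (𝓝 |u A - L|) :=
      (tendsto_const_nhds.sub hL).abs
    apply le_of_tendsto h5
    filter_upwards [eventually_ge_atTop A] with B hB
    have h6 := (hstep A B hA hB).2
    have h7 := hμle B (hA.trans hB)
    linarith
  refine ⟨L, fun ε hε => ?_⟩
  obtain ⟨A, hA, hlt⟩ := hex (ε / 2) (by positivity)
  refine ⟨A, fun K hKG hKf hAK => ?_⟩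
  have hGK : Gd K x F := (hA0 A hA).mono hAK
  obtain ⟨c1, c2⟩ := cmpA h1 h2 (hfin A) hKf hAK S (hA0 A hA)
  -- locality
  have hmK : mm (rst K (cls K x)) x F = mm K x F := by
    unfold mm
    apply Finset.sum_congr rfl
    intro e _
    exact fr_loc K x {e} {e}
  have hlow : μ ≤ mm K x F := by
    rw [← hmK]
    set C : Finset V := hKf.toFinset with hC
    have hCc : (C : Set V) = cls K x := hKf.coe_toFinset
    have hle1 : rst K (cls K x) ≤ rst G (C : Set V) := by
      intro a b hab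
      rw [rst_adj] at hab
      rw [rst_adj, hCc]
      exact ⟨hKG hab.1, hab.2⟩
    have hfK : (cls (rst K (cls K x)) x).Finite := by
      rw [cls_loc]; exact hKf
    have d1 := (cmpA h1 h2 hfK (hfin C) hle1 S hGK.loc).1
    have d2 := (cmpA h1 h2 (hfin C) (hfin (C ∪ A0)) (hmono _ _ Finset.subset_union_left) S
      (hGK.loc.mono hle1)).1
    have d3 := hμle (C ∪ A0) Finset.subset_union_right
    exact d3.trans (d2.trans d1)
  have c3 := hdist A hA
  have c4 : |u A - fr K x F S| ≤ m A - mm K x F := c2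
  have c5 : |fr K x F S - L| ≤ |u A - fr K x F S| + |u A - L| := by
    have e1 : fr K x F S - L = -(u A - fr K x F S) + (u A - L) := by ring
    rw [e1]
    refine (abs_add_le _ _).trans ?_
    rw [abs_neg]
  linarith

theorem cv (h1 : S_CP) (h2 : S_D1) (h3 : S_D2) (h4 : S_C3) : S_CV := by
  classical
  intro V G hok hrec F S hF
  have hok' := hok
  obtain ⟨hinf, hcount, hG, hlf⟩ := hok
  obtain ⟨x0⟩ : Nonempty V := inferInstance
  obtain ⟨L, hL⟩ := core h1 h2 hG x0 F S hF
  -- the limit does not depend on the vertex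
  have hall : ∀ x : V, ∀ ε : ℝ, 0 < ε → ∃ A1 : Finset V, ∀ K : SimpleGraph V, K ≤ G →
      (cls K x).Finite → rst G (A1 : Set V) ≤ K → |fr K x F S - L| ≤ ε := by
    intro x
    obtain ⟨L', hL'⟩ := core h1 h2 hG x F S hF
    have hLL : L' = L := by
      obtain ⟨p⟩ := hG.preconnected x0 x
      obtain ⟨W, hW⟩ := reach_big p
      have hclose : ∀ ε : ℝ, 0 < ε → |L' - L| ≤ 2 * ε := by
        intro ε hε
        obtain ⟨A1, hA1⟩ := hL ε hε
        obtain ⟨A2, hA2⟩ := hL' ε hε
        set A : Finset V := A1 ∪ A2 ∪ W with hA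
        have s1 : A1 ⊆ A := fun z hz => by simp [hA, hz]
        have s2 : A2 ⊆ A := fun z hz => by simp [hA, hz]
        have s3 : W ⊆ A := fun z hz => by simp [hA, hz]
        have e1 := hA1 (rst G (A : Set V)) (rst_le _ _) (cls_rst_finite G A x0)
          (rst_mono G (Finset.coe_subset.2 s1))
        have e2 := hA2 (rst G (A : Set V)) (rst_le _ _) (cls_rst_finite G A x)
          (rst_mono G (Finset.coe_subset.2 s2))
        rw [fr_root (hW A s3)] at e1
        have e3 : L' - L = -(fr (rst G (A : Set V)) x F S - L') +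
          (fr (rst G (A : Set V)) x F S - L) := by ring
        rw [e3]
        refine (abs_add_le _ _).trans ?_
        rw [abs_neg]
        linarith
      by_contra hne
      have hpos : 0 < |L' - L| := abs_pos.2 (sub_ne_zero.2 hne)
      have := hclose (|L' - L| / 4) (by positivity)
      linarith
    rw [hLL] at hL'
    exact hL'
  refine ⟨L, ?_, ?_⟩
  · intro H hmono hfin hadj x
    have hHG : ∀ n, H n ≤ G := fun n a b hab => (hadj a b).2 ⟨n, hab⟩
    rw [Metric.tendsto_atTop]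
    intro ε hε
    obtain ⟨A1, hA1⟩ := hall x (ε / 2) (by positivity)
    -- the graph on `A1` is contained in `H n`
    have hN : ∃ N, ∀ n ≥ N, rst G (A1 : Set V) ≤ H n := by
      have hpair : ∀ q : V × V, ∃ n, G.Adj q.1 q.2 → (H n).Adj q.1 q.2 := by
        intro q
        by_cases hq : G.Adj q.1 q.2
        · obtain ⟨n, hn⟩ := (hadj _ _).1 hq
          exact ⟨n, fun _ => hn⟩
        · exact ⟨0, fun h => absurd h hq⟩
      choose N hN using hpair
      refine ⟨(A1 ×ˢ A1).sup N, fun n hn a b hab => ?_⟩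
      rw [rst_adj] at hab
      have hmem : (a, b) ∈ A1 ×ˢ A1 :=
        Finset.mem_product.2 ⟨Finset.mem_coe.1 hab.2.1, Finset.mem_coe.1 hab.2.2⟩
      have h5 : N (a, b) ≤ n := (Finset.le_sup hmem).trans hn
      exact hmono h5 (hN (a, b) hab.1)
    obtain ⟨N, hN⟩ := hN
    refine ⟨N, fun n hn => ?_⟩
    have := hA1 (H n) (hHG n) (hfin n x) (hN n hn)
    rw [Real.dist_eq]
    linarith
  · intro A hmono hconn hex
    -- every finite set is contained in `A n` for large `n`
    have hbig : ∀ B : Finset V, ∃ N, ∀ n ≥ N, B ⊆ A n := by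
      intro B
      choose N hN using hex
      refine ⟨B.sup N, fun n hn v hv => ?_⟩
      have h5 : N v ≤ n := (Finset.le_sup hv).trans hn
      exact hmono h5 (hN v)
    rw [Metric.tendsto_atTop]
    intro ε hε
    obtain ⟨A1, hA1⟩ := hall x0 (ε / 4) (by positivity)
    obtain ⟨A0, hA0⟩ := Gd_big hG x0 F hF
    set δ : ℝ := ε / (4 * (F.card + 1)) with hδ
    have hδ0 : 0 < δ := by positivity
    have hB : ∀ e : Sym2 V, ∃ B : Finset V, e ∈ G.edgeSet → ∀ A : Finset V, B ⊆ A → x0 ∈ A →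
        (∀ a ∈ A, a ∈ cls (rst G (A : Set V)) x0) →
        fr (rst G (A : Set V)) x0 {e} {e} - wr G A {e} {e} ≤ δ := by
      intro e
      by_cases he : e ∈ G.edgeSet
      · obtain ⟨B, hB⟩ := h4 V G hok' hrec x0 e he δ hδ0
        exact ⟨B, fun _ => hB⟩
      · exact ⟨∅, fun h => absurd h he⟩
    choose B hB using hB
    obtain ⟨N, hN⟩ := hbig (A1 ∪ A0 ∪ {x0} ∪ F.biUnion B)
    refine ⟨N, fun n hn => ?_⟩
    have hsub := hN n hn
    have s1 : A1 ⊆ A n := fun z hz => hsub (by simp [hz])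
    have s2 : A0 ⊆ A n := fun z hz => hsub (by simp [hz])
    have s3 : x0 ∈ A n := hsub (by simp)
    have s4 : ∀ e ∈ F, B e ⊆ A n := fun e he z hz => hsub (by
      rw [Finset.mem_union]
      right
      exact Finset.mem_biUnion.2 ⟨e, he, hz⟩)
    have hcn : ∀ a ∈ A n, a ∈ cls (rst G (A n : Set V)) x0 := fun a ha => hconn n x0 s3 a ha
    have hD : {e : Sym2 V | e ∈ G.edgeSet ∧ ∃ v ∈ e, v ∈ A n}.Finite := by
      apply ((A n).finite_toSet.biUnion (fun v _ => (hlf v).image (fun w => s(v, w)))).subset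
      rintro e ⟨he, v, hv, hvA⟩
      rw [Set.mem_iUnion₂]
      refine ⟨v, hvA, ?_⟩
      obtain ⟨w, rfl⟩ := hv
      exact ⟨w, he, rfl⟩
    have e1 := cmpB h1 h3 hG hD s3 hcn S (hA0 _ s2)
    have e2 : ∑ e ∈ F, (fr (rst G (A n : Set V)) x0 {e} {e} - wr G (A n) {e} {e}) ≤ ε / 4 := by
      calc ∑ e ∈ F, (fr (rst G (A n : Set V)) x0 {e} {e} - wr G (A n) {e} {e})
          ≤ ∑ e ∈ F, δ := Finset.sum_le_sum fun e he =>
            hB e (hF he) (A n) (s4 e he) s3 hcn
        _ = F.card * δ := by rw [Finset.sum_const, nsmul_eq_mul]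
        _ ≤ ε / 4 := by
          rw [hδ, mul_div_assoc', div_le_div_iff₀ (by positivity) (by norm_num)]
          nlinarith
    have e3 := hA1 (rst G (A n : Set V)) (rst_le _ _) (cls_rst_finite G (A n) x0)
      (rst_mono G (Finset.coe_subset.2 s1))
    rw [Real.dist_eq]
    have e4 : wr G (A n) F S - L = -(fr (rst G (A n : Set V)) x0 F S - wr G (A n) F S) +
      (fr (rst G (A n : Set V)) x0 F S - L) := by ring
    rw [e4]
    refine lt_of_le_of_lt (abs_add_le _ _) ?_
    rw [abs_neg]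
    linarith

end basic

end Pool.Agent.Y848.WU
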